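import Pool.Agent.helper67.RG.Spec2

/-!
# Row CAT: concatenated flag of a direct sum
-/

namespace Pool.Agent.RG.CAT

open Matrix Pool.Agent.GO Pool.Agent.AR Pool.Agent.RG

section levels

variable {r : ℕ} (N : Fin r → ℕ)

/-- the number of levels before block `i` -/
def Sb (i : Fin r) : ℕ := ∑ i' ∈ Finset.univ.filter (fun i' => i' < i), N i'

theorem Sb_lt {i i' : Fin r} (h : i < i') : Sb N i + N i ≤ Sb N i' := by
  unfold Sb
  rw [add_comm, ← Finset.sum_insert (f := N) (a := i)
    (s := Finset.univ.filter (fun i' => i' < i)) (by simp)]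
  apply Finset.sum_le_sum_of_subset
  intro x hx
  rw [Finset.mem_insert, Finset.mem_filter] at hx
  rw [Finset.mem_filter]
  rcases hx with rfl | hx
  · exact ⟨Finset.mem_univ _, h⟩
  · exact ⟨Finset.mem_univ _, hx.2.trans h⟩

theorem Sb_eq (i : Fin r) : ∑ i' : Fin i.1, N (Fin.castLE i.2.le i') = Sb N i := by
  unfold Sb
  apply Finset.sum_nbij (fun i' : Fin i.1 => Fin.castLE i.2.le i')
  · intro a _
    simp only [Finset.mem_filter, Finset.mem_univ, true_and]
    exact a.2
  · intro a _ b _ hab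
    exact Fin.castLE_injective i.2.le hab
  · intro b hb
    simp only [Finset.mem_coe, Finset.mem_filter, Finset.mem_univ, true_and] at hb
    exact ⟨⟨b.1, hb⟩, by simp, rfl⟩
  · intro a _
    rfl

/-- the level of block `i` at stage `k` -/
def lev (k : ℕ) (i : Fin r) : ℕ := min (k - Sb N i) (N i)

theorem sig_val (p : (i : Fin r) × Fin (N i)) :
    (finSigmaFinEquiv p : ℕ) = Sb N p.1 + p.2 := by
  rw [finSigmaFinEquiv_apply, Sb_eq]

theorem lev_le (k : ℕ) (i : Fin r) : lev N k i ≤ N i := min_le_right _ _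

theorem lev_zero (i : Fin r) : lev N 0 i = 0 := by
  unfold lev
  simp

theorem lev_top (i : Fin r) : lev N (∑ i, N i) i = N i := by
  unfold lev
  by_cases h : N i = 0
  · rw [h, Nat.min_zero]
  · have h1 := (finSigmaFinEquiv (⟨i, ⟨N i - 1, by omega⟩⟩ : (i : Fin r) × Fin (N i))).2
    rw [sig_val] at h1
    simp only at h1
    omega

theorem lev_self (k : Fin (∑ i, N i)) :
    lev N k.1 (finSigmaFinEquiv.symm k).1 = (finSigmaFinEquiv.symm k).2.1 := by
  have h1 := sig_val N (finSigmaFinEquiv.symm k)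
  rw [Equiv.apply_symm_apply] at h1
  have h2 := (finSigmaFinEquiv.symm k).2.2
  unfold lev
  omega

theorem lev_succ (k : Fin (∑ i, N i)) :
    lev N (k.1 + 1) (finSigmaFinEquiv.symm k).1 = (finSigmaFinEquiv.symm k).2.1 + 1 := by
  have h1 := sig_val N (finSigmaFinEquiv.symm k)
  rw [Equiv.apply_symm_apply] at h1
  have h2 := (finSigmaFinEquiv.symm k).2.2
  unfold lev
  omega

theorem lev_ne (k : Fin (∑ i, N i)) (i' : Fin r) (h : i' ≠ (finSigmaFinEquiv.symm k).1) :
    lev N (k.1 + 1) i' = lev N k.1 i' := by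
  have h1 := sig_val N (finSigmaFinEquiv.symm k)
  rw [Equiv.apply_symm_apply] at h1
  have h2 := (finSigmaFinEquiv.symm k).2.2
  unfold lev
  rcases lt_or_gt_of_ne h with h3 | h3
  · have := Sb_lt N h3
    omega
  · have := Sb_lt N h3
    omega

end levels

section blocks

variable {F : Type*} [Field F] {r : ℕ} {n : Fin r → ℕ}

/-- block `i` -/
def blk (i : Fin r) : ((Σ i : Fin r, Fin (n i)) → F) →ₗ[F] (Fin (n i) → F) :=
  LinearMap.funLeft F F (fun j : Fin (n i) => (⟨i, j⟩ : Σ i : Fin r, Fin (n i)))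

theorem blk_apply (i : Fin r) (x : (Σ i : Fin r, Fin (n i)) → F) (j : Fin (n i)) :
    blk i x j = x ⟨i, j⟩ := rfl

/-- the vector with the given block `i` and `0` elsewhere -/
def ins (i : Fin r) : (Fin (n i) → F) →ₗ[F] ((Σ i : Fin r, Fin (n i)) → F) where
  toFun y := fun p => if h : p.1 = i then y (h ▸ p.2) else 0
  map_add' x y := by
    ext p
    simp only [Pi.add_apply]
    split_ifs with h
    · rfl
    · rw [add_zero]
  map_smul' c x := by
    ext p
    simp only [Pi.smul_apply, RingHom.id_apply]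
    split_ifs with h
    · rfl
    · rw [smul_zero]

theorem blk_ins (i : Fin r) (y : Fin (n i) → F) : blk i (ins i y) = y := by
  ext j
  rw [blk_apply]
  show (if h : i = i then y (h ▸ j) else 0) = y j
  rw [dif_pos rfl]

theorem blk_ins_ne {i i' : Fin r} (h : i' ≠ i) (y : Fin (n i) → F) : blk i' (ins i y) = 0 := by
  ext j
  rw [blk_apply]
  show (if h : i' = i then y (h ▸ j) else 0) = 0
  rw [dif_neg h]

theorem blk_ext {x y : (Σ i : Fin r, Fin (n i)) → F} (h : ∀ i, blk i x = blk i y) : x = y := by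
  ext ⟨i, j⟩
  exact congrFun (h i) j

theorem blk_dirSum {Γ : Type*} [Group Γ]
    (V : (i : Fin r) → Γ →* Matrix (Fin (n i)) (Fin (n i)) F) (g : Γ) (i : Fin r)
    (x : (Σ i : Fin r, Fin (n i)) → F) : blk i (dirSum V g *ᵥ x) = V i g *ᵥ blk i x := by
  ext a
  rw [blk_apply]
  simp only [Matrix.mulVec, dotProduct, blk_apply]
  rw [Fintype.sum_sigma, Finset.sum_eq_single i]
  · apply Finset.sum_congr rfl
    intro b _
    rw [dirSum_apply]
  · intro i' _ hi'
    apply Finset.sum_eq_zero
    intro b _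
    have : dirSum V g ⟨i, a⟩ ⟨i', b⟩ = 0 :=
      Matrix.blockDiagonal'_apply_ne (fun i => V i g) a b (Ne.symm hi')
    rw [this, zero_mul]
  · intro h
    exact absurd (Finset.mem_univ i) h

theorem ins_dirSum {Γ : Type*} [Group Γ]
    (V : (i : Fin r) → Γ →* Matrix (Fin (n i)) (Fin (n i)) F) (g : Γ) (i : Fin r)
    (y : Fin (n i) → F) : ins i (V i g *ᵥ y) = dirSum V g *ᵥ ins i y := by
  apply blk_ext
  intro i'
  rw [blk_dirSum]
  by_cases h : i' = i
  · subst h
    rw [blk_ins, blk_ins]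
  · rw [blk_ins_ne h, blk_ins_ne h, Matrix.mulVec_zero]

end blocks

theorem CAT : CAT_stmt := by
  intro F Γ _ _ r n V N c hc d W π hπ
  let c' : ℕ → Submodule F ((Σ i : Fin r, Fin (n i)) → F) :=
    fun k => ⨅ i, (c i (lev N k i)).comap (blk i)
  have hmem : ∀ k x, x ∈ c' k ↔ ∀ i, blk i x ∈ c i (lev N k i) := by
    intro k x
    show x ∈ ⨅ i, (c i (lev N k i)).comap (blk i) ↔ _
    rw [Submodule.mem_iInf]
    rfl
  have hle : ∀ k : Fin (∑ i, N i), c' k.1 ≤ c' (k.1 + 1) := by
    intro k x hx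
    rw [hmem] at hx ⊢
    intro i
    by_cases hi : i = (finSigmaFinEquiv.symm k).1
    · subst hi
      rw [lev_succ]
      have := hx (finSigmaFinEquiv.symm k).1
      rw [lev_self] at this
      exact ((hc _).lt _ (finSigmaFinEquiv.symm k).2.2).le this
    · rw [lev_ne N k i hi]
      exact hx i
  have hins : ∀ (k : Fin (∑ i, N i)) (y : Fin (n (finSigmaFinEquiv.symm k).1) → F),
      ins (finSigmaFinEquiv.symm k).1 y ∈ c' k.1 ↔
        y ∈ c (finSigmaFinEquiv.symm k).1 (finSigmaFinEquiv.symm k).2.1 := by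
    intro k y
    rw [hmem]
    constructor
    · intro h
      have := h (finSigmaFinEquiv.symm k).1
      rwa [lev_self, blk_ins] at this
    · intro h i
      by_cases hi : i = (finSigmaFinEquiv.symm k).1
      · subst hi
        rwa [lev_self, blk_ins]
      · rw [blk_ins_ne hi]
        exact Submodule.zero_mem _
  have hins' : ∀ (k : Fin (∑ i, N i)) (y : Fin (n (finSigmaFinEquiv.symm k).1) → F),
      ins (finSigmaFinEquiv.symm k).1 y ∈ c' (k.1 + 1) ↔
        y ∈ c (finSigmaFinEquiv.symm k).1 ((finSigmaFinEquiv.symm k).2.1 + 1) := by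
    intro k y
    rw [hmem]
    constructor
    · intro h
      have := h (finSigmaFinEquiv.symm k).1
      rwa [lev_succ, blk_ins] at this
    · intro h i
      by_cases hi : i = (finSigmaFinEquiv.symm k).1
      · subst hi
        rwa [lev_succ, blk_ins]
      · rw [blk_ins_ne hi]
        exact Submodule.zero_mem _
  have hblk : ∀ (k : Fin (∑ i, N i)) (x : (Σ i : Fin r, Fin (n i)) → F), x ∈ c' (k.1 + 1) →
      blk (finSigmaFinEquiv.symm k).1 x ∈
        c (finSigmaFinEquiv.symm k).1 ((finSigmaFinEquiv.symm k).2.1 + 1) := by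
    intro k x hx
    rw [hmem] at hx
    have := hx (finSigmaFinEquiv.symm k).1
    rwa [lev_succ] at this
  have hdiff : ∀ (k : Fin (∑ i, N i)) (x : (Σ i : Fin r, Fin (n i)) → F), x ∈ c' (k.1 + 1) →
      x - ins (finSigmaFinEquiv.symm k).1 (blk (finSigmaFinEquiv.symm k).1 x) ∈ c' k.1 := by
    intro k x hx
    rw [hmem] at hx ⊢
    intro i
    rw [map_sub]
    by_cases hi : i = (finSigmaFinEquiv.symm k).1
    · subst hi
      rw [blk_ins, sub_self]
      exact Submodule.zero_mem _
    · rw [blk_ins_ne hi, sub_zero, ← lev_ne N k i hi]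
      exact hx i
  have hker : ∀ (k : Fin (∑ i, N i)) (x : (Σ i : Fin r, Fin (n i)) → F), x ∈ c' (k.1 + 1) →
      (x ∈ c' k.1 ↔ blk (finSigmaFinEquiv.symm k).1 x ∈
        c (finSigmaFinEquiv.symm k).1 (finSigmaFinEquiv.symm k).2.1) := by
    intro k x hx
    rw [← hins]
    have h1 := hdiff k x hx
    constructor
    · intro h
      have h2 := Submodule.sub_mem _ h h1
      rwa [sub_sub_cancel] at h2
    · intro h
      have h2 := Submodule.add_mem _ h1 h
      rwa [sub_add_cancel] at h2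
  refine ⟨c', ⟨?_, ?_, ?_, ?_, ?_⟩, ?_⟩
  · rw [eq_bot_iff]
    intro x hx
    rw [hmem] at hx
    rw [Submodule.mem_bot]
    apply blk_ext
    intro i
    have := hx i
    rw [lev_zero, (hc i).bot, Submodule.mem_bot] at this
    rw [this, map_zero]
  · rw [eq_top_iff]
    intro x _
    rw [hmem]
    intro i
    rw [lev_top, (hc i).top]
    trivial
  · intro k hk
    have h1 := hle ⟨k, hk⟩
    refine lt_of_le_of_ne h1 ?_
    intro heq
    obtain ⟨y, hy, hy'⟩ := SetLike.exists_of_lt
      ((hc _).lt _ (finSigmaFinEquiv.symm ⟨k, hk⟩).2.2)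
    apply hy'
    rw [← hins ⟨k, hk⟩ y]
    have h2 := (hins' ⟨k, hk⟩ y).2 hy
    simp only at h2 ⊢
    rw [heq]
    exact h2
  · intro k hk g x hx
    rw [hmem] at hx ⊢
    intro i
    rw [blk_dirSum]
    exact (hc i).stable _ (lev_le N k i) g _ (hx i)
  · intro k hk H hH B hB h1 h2
    have h3 := (hc (finSigmaFinEquiv.symm ⟨k, hk⟩).1).irr
      (finSigmaFinEquiv.symm ⟨k, hk⟩).2.1 (finSigmaFinEquiv.symm ⟨k, hk⟩).2.2 H hH
      (B.comap (ins (finSigmaFinEquiv.symm ⟨k, hk⟩).1))
      (by
        intro h hh x hx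
        rw [Submodule.mem_comap] at hx ⊢
        rw [ins_dirSum]
        exact hB h hh _ hx)
      (by
        intro y hy
        rw [Submodule.mem_comap]
        exact h1 ((hins ⟨k, hk⟩ y).2 hy))
      (by
        intro y hy
        rw [Submodule.mem_comap] at hy
        exact (hins' ⟨k, hk⟩ y).1 (h2 hy))
    rcases h3 with h3 | h3
    · left
      apply le_antisymm _ h1
      intro x hx
      have hx2 := h2 hx
      have h4 := h1 (hdiff ⟨k, hk⟩ x hx2)
      have h5 := Submodule.sub_mem _ hx h4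
      rw [sub_sub_cancel] at h5
      rw [← Submodule.mem_comap, h3] at h5
      exact (hker ⟨k, hk⟩ x hx2).2 h5
    · right
      apply le_antisymm h2
      intro x hx
      have h4 := h1 (hdiff ⟨k, hk⟩ x hx)
      have h5 := hblk ⟨k, hk⟩ x hx
      rw [← h3, Submodule.mem_comap] at h5
      have h6 := Submodule.add_mem _ h4 h5
      rwa [sub_add_cancel] at h6
  · refine ⟨fun k => (π (finSigmaFinEquiv.symm k).1 (finSigmaFinEquiv.symm k).2).comp
      ((blk (finSigmaFinEquiv.symm k).1).restrict (hblk k)), ?_⟩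
    intro k
    have hf := hπ (finSigmaFinEquiv.symm k).1 (finSigmaFinEquiv.symm k).2
    refine ⟨hle k, ?_, ?_, ?_⟩
    · intro z
      obtain ⟨y, hy⟩ := hf.surj z
      refine ⟨⟨ins (finSigmaFinEquiv.symm k).1 y.1, (hins' k y.1).2 y.2⟩, ?_⟩
      rw [LinearMap.comp_apply, ← hy]
      congr 1
      apply Subtype.ext
      exact blk_ins _ _
    · intro x
      rw [LinearMap.comp_apply, hf.ker, hker k x.1 x.2]
      rfl
    · intro g x y hxy
      rw [LinearMap.comp_apply, LinearMap.comp_apply]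
      apply hf.equiv
      show blk (finSigmaFinEquiv.symm k).1 y.1 = _
      rw [hxy, blk_dirSum]
      rfl

end Pool.Agent.RG.CAT
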