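import Pool.Agent.helper67.RG.Spec

/-!
# Row LFD: right translation on the algebra of representative functions
-/

namespace Pool.Agent.RG.LFD

open Matrix Polynomial Pool.Agent.GO Pool.Agent.AR Pool.Agent.RG

section general

variable {F A : Type*} [Field F] [CommRing A] [Algebra F A]

theorem tau_pow (τ : A →ₐ[F] A) (ψ : F) (l : ℕ) (b : A)
    (h : ((τ.toLinearMap - ψ • (1 : Module.End F A)) ^ l) b = 0) :
    ((τ.toLinearMap - ψ • (1 : Module.End F A)) ^ l) (τ b) = 0 := by
  have hc : Commute (τ.toLinearMap - ψ • (1 : Module.End F A)) τ.toLinearMap := by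
    apply Commute.sub_left (Commute.refl _)
    exact (Commute.one_left _).smul_left _
  have h2 := LinearMap.congr_fun (hc.pow_left l).eq b
  rw [Module.End.mul_apply, Module.End.mul_apply, h, map_zero] at h2
  exact h2

theorem mul_aux (τ : A →ₐ[F] A) (χ ψ : F) : ∀ (n k l : ℕ), k + l = n → ∀ a b : A,
    ((τ.toLinearMap - χ • (1 : Module.End F A)) ^ k) a = 0 →
    ((τ.toLinearMap - ψ • (1 : Module.End F A)) ^ l) b = 0 →
    ((τ.toLinearMap - (χ * ψ) • (1 : Module.End F A)) ^ n) (a * b) = 0 := by
  intro n
  induction n with
  | zero =>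
    intro k l hkl a b ha hb
    have hk : k = 0 := by omega
    subst hk
    have ha' : a = 0 := by simpa using ha
    rw [ha', zero_mul, map_zero]
  | succ n ih =>
    intro k l hkl a b ha hb
    rcases k with _ | k
    · have ha' : a = 0 := by simpa using ha
      rw [ha', zero_mul, map_zero]
    rcases l with _ | l
    · have hb' : b = 0 := by simpa using hb
      rw [hb', mul_zero, map_zero]
    have e : (τ.toLinearMap - (χ * ψ) • (1 : Module.End F A)) (a * b) =
        (τ.toLinearMap - χ • (1 : Module.End F A)) a * τ b +
          χ • (a * (τ.toLinearMap - ψ • (1 : Module.End F A)) b) := by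
      simp only [LinearMap.sub_apply, LinearMap.smul_apply, Module.End.one_apply,
        AlgHom.toLinearMap_apply, map_mul, sub_mul, mul_sub, smul_sub, smul_mul_assoc,
        mul_smul_comm, smul_smul]
      abel
    rw [pow_succ, Module.End.mul_apply, e, map_add, map_smul]
    have h1 := ih k (l + 1) (by omega)
      ((τ.toLinearMap - χ • (1 : Module.End F A)) a) (τ b)
      (by rw [pow_succ, Module.End.mul_apply] at ha; exact ha) (tau_pow τ ψ _ b hb)
    have h2 := ih (k + 1) l (by omega) a ((τ.toLinearMap - ψ • (1 : Module.End F A)) b) ha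
      (by rw [pow_succ, Module.End.mul_apply] at hb; exact hb)
    rw [h1, h2, smul_zero, add_zero]

theorem mul_mem_gen (τ : A →ₐ[F] A) (χ ψ : F) (a b : A)
    (ha : a ∈ Module.End.maxGenEigenspace τ.toLinearMap χ)
    (hb : b ∈ Module.End.maxGenEigenspace τ.toLinearMap ψ) :
    a * b ∈ Module.End.maxGenEigenspace τ.toLinearMap (χ * ψ) := by
  rw [Module.End.mem_maxGenEigenspace] at ha hb ⊢
  obtain ⟨k, hk⟩ := ha
  obtain ⟨l, hl⟩ := hb
  exact ⟨k + l, mul_aux τ χ ψ (k + l) k l rfl a b hk hl⟩

theorem zero_gen (τ : A →ₐ[F] A) (hτ : Function.Injective τ) :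
    Module.End.maxGenEigenspace τ.toLinearMap 0 = ⊥ := by
  rw [eq_bot_iff]
  intro a ha
  rw [Module.End.mem_maxGenEigenspace] at ha
  obtain ⟨k, hk⟩ := ha
  rw [Submodule.mem_bot]
  rw [zero_smul, sub_zero] at hk
  induction k with
  | zero => simpa using hk
  | succ k ih =>
    apply ih
    rw [pow_succ', Module.End.mul_apply] at hk
    apply hτ
    rw [map_zero]
    exact hk

/-- the sum of the generalised eigenspaces as a subalgebra -/
def spanAlg (τ : A →ₐ[F] A) : Subalgebra F A where
  carrier := ((⨆ χ : F, Module.End.maxGenEigenspace τ.toLinearMap χ : Submodule F A) : Set A)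
  add_mem' := fun ha hb => Submodule.add_mem _ ha hb
  mul_mem' := by
    intro a b ha hb
    rw [SetLike.mem_coe] at ha hb ⊢
    refine Submodule.iSup_induction _
      (motive := fun a => a * b ∈ ⨆ χ : F, Module.End.maxGenEigenspace τ.toLinearMap χ) ha
      ?_ ?_ ?_
    · intro χ a ha
      refine Submodule.iSup_induction _
        (motive := fun b => a * b ∈ ⨆ χ : F, Module.End.maxGenEigenspace τ.toLinearMap χ) hb
        ?_ ?_ ?_
      · intro ψ b hb
        exact Submodule.mem_iSup_of_mem (χ * ψ) (mul_mem_gen τ χ ψ a b ha hb)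
      · rw [mul_zero]
        exact Submodule.zero_mem _
      · intro x y hx hy
        rw [mul_add]
        exact Submodule.add_mem _ hx hy
    · rw [zero_mul]
      exact Submodule.zero_mem _
    · intro x y hx hy
      rw [add_mul]
      exact Submodule.add_mem _ hx hy
  algebraMap_mem' := by
    intro r
    rw [SetLike.mem_coe]
    apply Submodule.mem_iSup_of_mem 1
    rw [Module.End.mem_maxGenEigenspace]
    refine ⟨1, ?_⟩
    rw [pow_one, LinearMap.sub_apply, LinearMap.smul_apply, Module.End.one_apply, one_smul,
      AlgHom.toLinearMap_apply, AlgHom.commutes, sub_self]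

theorem mem_spanAlg (τ : A →ₐ[F] A) (a : A) :
    a ∈ spanAlg τ ↔ a ∈ ⨆ χ : F, Module.End.maxGenEigenspace τ.toLinearMap χ := Iff.rfl

/-- an intertwiner from a finite-dimensional space lands in the sum of the generalised
eigenspaces -/
theorem intertwine [IsAlgClosed F] {M : Type*} [AddCommGroup M] [Module F M]
    [FiniteDimensional F M] (τ : A →ₐ[F] A) (f : Module.End F M) (T : M →ₗ[F] A)
    (h : ∀ x, τ (T x) = T (f x)) (x : M) : T x ∈ spanAlg τ := by
  rw [mem_spanAlg]
  have hx : x ∈ ⨆ χ : F, Module.End.maxGenEigenspace f χ := by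
    rw [Module.End.iSup_maxGenEigenspace_eq_top]
    trivial
  refine Submodule.iSup_induction _
    (motive := fun x => T x ∈ ⨆ χ : F, Module.End.maxGenEigenspace τ.toLinearMap χ) hx
    ?_ ?_ ?_
  · intro χ x hx
    apply Submodule.mem_iSup_of_mem χ
    rw [Module.End.mem_maxGenEigenspace] at hx ⊢
    obtain ⟨k, hk⟩ := hx
    refine ⟨k, ?_⟩
    have key : ∀ (k : ℕ) (x : M), ((τ.toLinearMap - χ • (1 : Module.End F A)) ^ k) (T x) =
        T (((f - χ • (1 : Module.End F M)) ^ k) x) := by
      intro k
      induction k with
      | zero => intro x; simp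
      | succ k ih =>
        intro x
        rw [pow_succ, Module.End.mul_apply, pow_succ, Module.End.mul_apply, ← ih]
        congr 1
        rw [LinearMap.sub_apply, LinearMap.smul_apply, Module.End.one_apply,
          AlgHom.toLinearMap_apply, h, LinearMap.sub_apply, LinearMap.smul_apply,
          Module.End.one_apply, map_sub, map_smul]
    rw [key, hk, map_zero]
  · rw [map_zero]
    exact Submodule.zero_mem _
  · intro x y hx hy
    rw [map_add]
    exact Submodule.add_mem _ hx hy

end general

theorem rtA_apply {F Γ m : Type*} [Field F] [Group Γ] [Fintype m] [DecidableEq m]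
    (R : Γ →* Matrix m m F) (g : Γ) (f : alg R) (h : Γ) : (rtA R g f).1 h = f.1 (h * g) := rfl

theorem rtA_inj {F Γ m : Type*} [Field F] [Group Γ] [Fintype m] [DecidableEq m]
    (R : Γ →* Matrix m m F) (g : Γ) : Function.Injective (rtA R g) := by
  intro a b hab
  apply Subtype.ext
  ext h
  have h1 := congrArg (fun f : alg R => f.1 (h * g⁻¹)) hab
  simp only [rtA_apply, inv_mul_cancel_right] at h1
  exact h1

theorem LFD : LFD_stmt := by
  intro F Γ m _ _ _ _ _ R g
  refine ⟨?_, zero_gen _ (rtA_inj R g), fun χ ψ a b ha hb => mul_mem_gen _ χ ψ a b ha hb⟩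
  have hle : alg R ≤ (spanAlg (rtA R g)).map (alg R).val := by
    apply alg_le
    · intro i j
      let T : (m → F) →ₗ[F] alg R :=
        { toFun := fun x => ∑ k, x k • gen R i k
          map_add' := fun x y => by
            simp only [Pi.add_apply, add_smul, Finset.sum_add_distrib]
          map_smul' := fun c x => by
            simp only [Pi.smul_apply, smul_eq_mul, mul_smul, Finset.smul_sum, RingHom.id_apply] }
      have hT : ∀ x h, (T x).1 h = ∑ k, x k * R h i k := by
        intro x h
        show (∑ k, x k • gen R i k : alg R).1 h = _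
        rw [sum_alg_apply]
        rfl
      have hint : ∀ x, rtA R g (T x) = T (Matrix.toLin' (R g) x) := by
        intro x
        apply Subtype.ext
        ext h
        rw [rtA_apply, hT, hT]
        simp only [map_mul, Matrix.mul_apply, Matrix.toLin'_apply, Matrix.mulVec, dotProduct,
          Finset.mul_sum, Finset.sum_mul]
        rw [Finset.sum_comm]
        apply Finset.sum_congr rfl
        intro k _
        apply Finset.sum_congr rfl
        intro l _
        ring
      have h1 := intertwine (rtA R g) (Matrix.toLin' (R g)) T hint (Pi.single j 1)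
      refine ⟨T (Pi.single j 1), h1, ?_⟩
      ext h
      show (T (Pi.single j 1)).1 h = R h i j
      rw [hT, Finset.sum_eq_single j]
      · simp
      · intro k _ hk
        rw [Pi.single_eq_of_ne hk, zero_mul]
      · intro hj
        exact absurd (Finset.mem_univ j) hj
    · intro i j
      let T : (m → F) →ₗ[F] alg R :=
        { toFun := fun x => ∑ k, x k • genInv R k j
          map_add' := fun x y => by
            simp only [Pi.add_apply, add_smul, Finset.sum_add_distrib]
          map_smul' := fun c x => by
            simp only [Pi.smul_apply, smul_eq_mul, mul_smul, Finset.smul_sum, RingHom.id_apply] }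
      have hT : ∀ x h, (T x).1 h = ∑ k, x k * R h⁻¹ k j := by
        intro x h
        show (∑ k, x k • genInv R k j : alg R).1 h = _
        rw [sum_alg_apply]
        rfl
      have hint : ∀ x, rtA R g (T x) = T (Matrix.toLin' (R g⁻¹)ᵀ x) := by
        intro x
        apply Subtype.ext
        ext h
        rw [rtA_apply, hT, hT]
        simp only [_root_.mul_inv_rev, map_mul, Matrix.mul_apply, Matrix.toLin'_apply,
          Matrix.mulVec, dotProduct, Matrix.transpose_apply,
          Finset.mul_sum, Finset.sum_mul]
        rw [Finset.sum_comm]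
        apply Finset.sum_congr rfl
        intro k _
        apply Finset.sum_congr rfl
        intro l _
        ring
      have h1 := intertwine (rtA R g) (Matrix.toLin' (R g⁻¹)ᵀ) T hint (Pi.single i 1)
      refine ⟨T (Pi.single i 1), h1, ?_⟩
      ext h
      show (T (Pi.single i 1)).1 h = R h⁻¹ i j
      rw [hT, Finset.sum_eq_single i]
      · simp
      · intro k _ hk
        rw [Pi.single_eq_of_ne hk, zero_mul]
      · intro hj
        exact absurd (Finset.mem_univ i) hj
  rw [eq_top_iff]
  intro a _
  obtain ⟨b, hb, hba⟩ := hle a.2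
  have : b = a := Subtype.ext hba
  rw [← this]
  exact (mem_spanAlg _ _).mp hb

end Pool.Agent.RG.LFD
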